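import Pool.Agent.Helper27.E7.Low3
import Pool.Agent.Helper27.E7.UpperA

/-!
# Codegree squares of 4-graphs with few odd five-sets

For every 4-graph `H` the sum of the squares of the codegrees of the triples is bounded in terms of the
number `p` of five-sets spanning an odd number of edges (one or three edges, if `H` is `K_5^4`-free).
The bound is attained asymptotically, with `p = 0`, by the conjectured extremal 4-graph for `K_5^4`
(Giraud; de Caen, Kreher, Wiseman; density `11/16`).
-/

set_option autoImplicit false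
open Finset

namespace Pool.Agent.Results.MP_afdd4d_co.CodegreeSquares

variable {V : Type} [DecidableEq V]

/-- The number of edges of `H` inside `S`. -/
def inside (H : Finset (Finset V)) (S : Finset V) : ℕ := (H.filter (fun e => e ⊆ S)).card

/-- The number of edges of `H` containing `T`. -/
def codegree (H : Finset (Finset V)) (T : Finset V) : ℕ := (H.filter (fun e => T ⊆ e)).card

/-- The number of five-sets of vertices inside which there is an odd number of edges. -/
def oddFives [Fintype V] (H : Finset (Finset V)) : ℕ :=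
  (((univ : Finset V).powersetCard 5).filter (fun S => Odd (inside H S))).card

/-- For every 4-graph `H` on `n` vertices the sum of the squares of the codegrees of the triples is at
most `(31/384) n^5 + 3675 p`, where `p` is the number of five-sets spanning an odd number of edges. The
bound is attained asymptotically, with `p = 0`, on `n = 2^(k+1)` vertices. -/
theorem result :
    (∀ (V : Type) [Fintype V] [DecidableEq V] (H : Finset (Finset V)), (∀ e ∈ H, e.card = 4) →
      ∑ T ∈ (univ : Finset V).powersetCard 3, (codegree H T : ℝ) ^ 2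
          ≤ 31 / 384 * (Fintype.card V : ℝ) ^ 5 + 3675 * oddFives H) ∧
    (∀ k : ℕ, ∃ H : Finset (Finset (Bool × (Fin k → ZMod 2))), (∀ e ∈ H, e.card = 4) ∧
      (∀ S : Finset (Bool × (Fin k → ZMod 2)), S.card = 5 → Even (inside H S)) ∧ oddFives H = 0 ∧
      ∀ n : ℝ, n = Fintype.card (Bool × (Fin k → ZMod 2)) → n = 2 ^ (k + 1) ∧
      31 / 384 * n ^ 5 - n ^ 4
          ≤ ∑ T ∈ (univ : Finset (Bool × (Fin k → ZMod 2))).powersetCard 3,
              (codegree H T : ℝ) ^ 2) := by
  constructor
  · intro V _ _ H hH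
    have hA := Helper27.E7.upperA hH
    have hA' : (384 : ℝ) * ∑ T ∈ (univ : Finset V).powersetCard 3, (codegree H T : ℝ) ^ 2
        ≤ 31 * (Fintype.card V : ℝ) ^ 5 + 1411200 * (oddFives H : ℝ) := by exact_mod_cast hA
    linarith
  · intro k
    refine ⟨Helper27.E7.Low.G k, (Helper27.E7.Low.even_G k).1, (Helper27.E7.Low.even_G k).2, ?_, ?_⟩
    · refine Finset.card_eq_zero.mpr (filter_eq_empty_iff.mpr fun S hS => ?_)
      rw [Nat.not_odd_iff_even]
      exact (Helper27.E7.Low.even_G k).2 S (mem_powersetCard.mp hS).2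
    · intro n hn
      have hc : (Fintype.card (Bool × (Fin k → ZMod 2)) : ℝ) = 2 ^ (k + 1) := by
        rw [Fintype.card_prod, Fintype.card_bool, Helper27.E7.Low.card_W]
        push_cast
        ring
      rw [hc] at hn
      refine ⟨hn, ?_⟩
      have h := Helper27.E7.Low.sumC2 (k := k)
      have h' : (24 : ℝ) * ∑ T ∈ (univ : Finset (Bool × (Fin k → ZMod 2))).powersetCard 3,
          (codegree (Helper27.E7.Low.G k) T : ℝ) ^ 2
          = 8 * ((2 : ℝ) ^ k) ^ 3 * ((2 : ℝ) ^ k - 1) * ((2 : ℝ) ^ k - 2)
            + 6 * ((2 : ℝ) ^ k) ^ 2 * ((2 : ℝ) ^ k - 1) * (3 * (2 : ℝ) ^ k - 4) ^ 2 := by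
        exact_mod_cast h
      have hn2 : n = 2 * (2 : ℝ) ^ k := by rw [hn, pow_succ]; ring
      have h1 : (1 : ℝ) ≤ 2 ^ k := one_le_pow₀ (by norm_num)
      rw [hn2]
      generalize (2 : ℝ) ^ k = N at h' h1 ⊢
      have e : 31 / 384 * (2 * N) ^ 5 - (2 * N) ^ 4
          = (8 * N ^ 3 * (N - 1) * (N - 2) + 6 * N ^ 2 * (N - 1) * (3 * N - 4) ^ 2) / 24
            - (162 * N ^ 4 + 256 * N ^ 3 - 96 * N ^ 2) / 24 := by ring
      rw [e, ← h']
      have h2 : 0 ≤ 162 * N ^ 4 + 256 * N ^ 3 - 96 * N ^ 2 := by
        have h3 : 0 ≤ N ^ 2 * (162 * N ^ 2 + 256 * N - 96) := by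
          apply mul_nonneg (by positivity)
          nlinarith
        linarith
      linarith

end Pool.Agent.Results.MP_afdd4d_co.CodegreeSquares
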